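import Pool.Agent.Helper17.SA.St2

/-!
# Module BW of project SA (MP_21f9f3_al)
-/

set_option autoImplicit false

namespace Pool.Agent.Helper82.SA

open Equiv Pool.Agent.Helper17.SA

theorem cc_odd {m : ℕ} (H : Subgroup (Perm (Fin m))) (hH : H ≤ alternatingGroup (Fin m)) (k : ℕ)
    (hk : ¬ k % 2 = 0) : cc H 2 k = 0 := by
  unfold cc
  have : IsEmpty {y : Perm (Fin m) // y ∈ H ∧ y.cycleType = Multiset.replicate k 2} := by
    constructor
    rintro ⟨y, hy, hc⟩
    have h1 : Perm.sign y = 1 := Perm.mem_alternatingGroup.mp (hH hy)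
    rw [Perm.sign_of_cycleType, hc, Multiset.sum_replicate, Multiset.card_replicate,
      smul_eq_mul] at h1
    have h2 : Odd (k * 2 + k) := by
      rw [Nat.odd_iff]; omega
    rw [h2.neg_one_pow] at h1
    exact absurd h1 (by decide)
  exact Nat.card_of_isEmpty

theorem pBW : StUB → StCNT → StBW := by
  intro ub cnt
  have key : ∀ (p N m : ℕ) (R : ℕ → ℕ → ℕ) (H : Subgroup (Perm (Fin m))), p.Prime → Good p N R →
      m / p ≤ N → IsPGroup p H → ∀ k ∈ Finset.Icc 1 (m / p), cc H p k ≤ R (m / p) k := by
    intro p N m R H hp hG hN hH k hk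
    have h := cnt p N R hp hG (Fin m) H hH (by rw [Fintype.card_fin]; exact hN) k
      (by rw [Fintype.card_fin]; exact (Finset.mem_Icc.mp hk).2)
    rw [Fintype.card_fin] at h
    exact h
  constructor
  · intro p N m R H hp hG hN hH
    refine (ub m p H hp hH).trans ?_
    unfold W
    apply Finset.sum_le_sum
    intro k hk
    have h := key p N m R H hp hG hN hH k hk
    gcongr
  · intro N m R H hG hN hH hA
    have h1 := ub m 2 H Nat.prime_two hH
    have h2 : (2 - 1) * bad H = bad H := by simp
    rw [h2] at h1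
    refine h1.trans ?_
    unfold We
    rw [Finset.sum_filter]
    apply Finset.sum_le_sum
    intro k hk
    by_cases hk2 : k % 2 = 0
    · rw [if_pos hk2]
      have h := key 2 N m R H Nat.prime_two hG hN hH k hk
      gcongr
    · rw [if_neg hk2, cc_odd H hA k hk2]
      simp

end Pool.Agent.Helper82.SA
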