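import Pool.Agent.Helper17.SA.St2

/-!
# Module TOT of project SA (MP_21f9f3_al)
-/

set_option autoImplicit false

namespace Pool.Agent.Helper82.SA.TOT

open Equiv Pool.Agent.Helper17.SA

theorem at_most_one {ι : Type} [Fintype ι] (p : ι → ℕ) (hinj : Function.Injective p) (q b : ℕ) :
    ∑ i, (if p i = q then b else 0) ≤ b := by
  rw [← Finset.sum_filter, Finset.sum_const, smul_eq_mul]
  have h : (Finset.univ.filter (fun i => p i = q)).card ≤ 1 := by
    apply Finset.card_le_one.mpr
    intro a ha b hb
    rw [Finset.mem_filter] at ha hb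
    exact hinj (ha.2.trans hb.2.symm)
  calc _ ≤ 1 * b := Nat.mul_le_mul_right b h
    _ = b := one_mul b

theorem geo {ι : Type} [Fintype ι] (p : ι → ℕ) (hinj : Function.Injective p) :
    ∑ i, (if 11 ≤ p i then ((1 : ℝ) / 10) ^ (p i - 11) else 0) ≤ 10 / 9 := by
  classical
  rw [← Finset.sum_filter]
  have hinj' : Set.InjOn (fun i => p i - 11) (Finset.univ.filter (fun i => 11 ≤ p i) : Finset ι) := by
    intro a ha b hb hab
    simp only [Finset.coe_filter, Finset.mem_univ, true_and, Set.mem_setOf_eq] at ha hb hab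
    apply hinj
    omega
  have h1 : ∑ i ∈ Finset.univ.filter (fun i => 11 ≤ p i), ((1 : ℝ) / 10) ^ (p i - 11)
      = ∑ j ∈ (Finset.univ.filter (fun i => 11 ≤ p i)).image (fun i => p i - 11),
          ((1 : ℝ) / 10) ^ j := by
    rw [Finset.sum_image hinj']
  rw [h1]
  have hs : Summable (fun j : ℕ => ((1 : ℝ) / 10) ^ j) :=
    summable_geometric_of_lt_one (by norm_num) (by norm_num)
  refine (hs.sum_le_tsum _ (fun j _ => by positivity)).trans ?_
  rw [tsum_geometric_of_lt_one (by norm_num) (by norm_num)]
  norm_num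

theorem pTOT : StBW → StGDT → StA57 → StTOT := by
  intro bw gdt a57 m ι _ p H b2 b3 b5 b7 hp hinj hH h2 h3 h5 h7
  classical
  obtain ⟨-, -, a11⟩ := a57
  -- the large primes
  have big : ∀ i, 11 ≤ p i → (p i - 2).factorial * bad (H i) ≤ 3 * m.factorial := by
    intro i hi
    have e1 := bw.1 (p i) (m / p i) m (RT (p i)) (H i) (hp i) (gdt (p i) (m / p i) (hp i)) le_rfl
      (hH i)
    have e2 := a11 m (p i) hi
    have e3 : (p i - 2).factorial * ((p i - 1) * bad (H i))
        ≤ 3 * (p i - 1) * m.factorial := (Nat.mul_le_mul_left _ e1).trans e2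
    have e4 : (p i - 1) * ((p i - 2).factorial * bad (H i)) ≤ (p i - 1) * (3 * m.factorial) := by
      calc (p i - 1) * ((p i - 2).factorial * bad (H i))
          = (p i - 2).factorial * ((p i - 1) * bad (H i)) := by ring
        _ ≤ 3 * (p i - 1) * m.factorial := e3
        _ = (p i - 1) * (3 * m.factorial) := by ring
    exact Nat.le_of_mul_le_mul_left e4 (by omega)
  have bigR : ∀ i, 11 ≤ p i →
      (bad (H i) : ℝ) ≤ 3 * m.factorial / 362880 * ((1 : ℝ) / 10) ^ (p i - 11) := by
    intro i hi
    have e1 := big i hi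
    have e2 : Nat.factorial 9 * (9 + 1) ^ (p i - 11) ≤ (9 + (p i - 11)).factorial :=
      Nat.factorial_mul_pow_le_factorial
    have e3 : 9 + (p i - 11) = p i - 2 := by omega
    rw [e3] at e2
    have e4 : 362880 * 10 ^ (p i - 11) * bad (H i) ≤ 3 * m.factorial := by
      calc 362880 * 10 ^ (p i - 11) * bad (H i)
          = (Nat.factorial 9 * (9 + 1) ^ (p i - 11)) * bad (H i) := by
            norm_num [Nat.factorial]
        _ ≤ (p i - 2).factorial * bad (H i) := Nat.mul_le_mul_right _ e2
        _ ≤ 3 * m.factorial := e1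
    have e5 : (362880 : ℝ) * 10 ^ (p i - 11) * bad (H i) ≤ 3 * m.factorial := by
      exact_mod_cast e4
    have e6 : (0 : ℝ) < 10 ^ (p i - 11) := by positivity
    rw [one_div, inv_pow, ← div_eq_mul_inv, le_div_iff₀ e6, le_div_iff₀ (by norm_num)]
    linarith
  have bigsum : ∑ i, (if 11 ≤ p i then bad (H i) else 0) ≤ m.factorial / 10000 := by
    rw [Nat.le_div_iff_mul_le (by norm_num)]
    have e1 : ((∑ i, (if 11 ≤ p i then bad (H i) else 0) : ℕ) : ℝ)
        ≤ 3 * m.factorial / 362880 * (10 / 9) := by
      push_cast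
      calc ∑ i, (if 11 ≤ p i then (bad (H i) : ℝ) else 0)
          ≤ ∑ i, 3 * (m.factorial : ℝ) / 362880 *
              (if 11 ≤ p i then ((1 : ℝ) / 10) ^ (p i - 11) else 0) := by
            apply Finset.sum_le_sum
            intro i _
            split_ifs with hi
            · exact bigR i hi
            · simp
        _ = 3 * (m.factorial : ℝ) / 362880 *
              ∑ i, (if 11 ≤ p i then ((1 : ℝ) / 10) ^ (p i - 11) else 0) := by
            rw [Finset.mul_sum]
        _ ≤ 3 * m.factorial / 362880 * (10 / 9) := by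
            apply mul_le_mul_of_nonneg_left (geo p hinj)
            positivity
    have e2 : (0 : ℝ) ≤ m.factorial := by positivity
    have e3 : ((∑ i, (if 11 ≤ p i then bad (H i) else 0) : ℕ) : ℝ) * 10000 ≤ m.factorial := by
      linarith
    exact_mod_cast e3
  have pt : ∀ i, bad (H i) ≤ (if p i = 2 then b2 else 0) + (if p i = 3 then b3 else 0) +
      (if p i = 5 then b5 else 0) + (if p i = 7 then b7 else 0) +
      (if 11 ≤ p i then bad (H i) else 0) := by
    intro i
    by_cases c : 11 ≤ p i
    · rw [if_pos c]; omega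
    · have hpi := hp i
      have hlt : p i < 11 := not_le.mp c
      have hcases : p i = 2 ∨ p i = 3 ∨ p i = 5 ∨ p i = 7 := by
        revert hpi
        generalize p i = q at hlt
        intro hq
        interval_cases q <;> first | omega | (exfalso; revert hq; norm_num)
      rcases hcases with h | h | h | h
      · have := h2 i h
        rw [if_pos h]; omega
      · have := h3 i h
        rw [if_pos h]; omega
      · have := h5 i h
        rw [if_pos h]; omega
      · have := h7 i h
        rw [if_pos h]; omega
  calc ∑ i, bad (H i) ≤ ∑ i, ((if p i = 2 then b2 else 0) + (if p i = 3 then b3 else 0) +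
      (if p i = 5 then b5 else 0) + (if p i = 7 then b7 else 0) +
      (if 11 ≤ p i then bad (H i) else 0)) := Finset.sum_le_sum fun i _ => pt i
    _ ≤ b2 + b3 + b5 + b7 + m.factorial / 10000 := by
      rw [Finset.sum_add_distrib, Finset.sum_add_distrib, Finset.sum_add_distrib,
        Finset.sum_add_distrib]
      have i2 := at_most_one p hinj 2 b2
      have i3 := at_most_one p hinj 3 b3
      have i5 := at_most_one p hinj 5 b5
      have i7 := at_most_one p hinj 7 b7
      omega

end Pool.Agent.Helper82.SA.TOT
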